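import Pool.Agent.Lib.MP_760d08_an.Main

/-!
The nonlinear mean ergodic theorem in real and complex uniformly convex Banach spaces, in every
universe.  Uniform convexity is written out in the form of the problem.
-/

set_option autoImplicit false

open Filter Topology Metric

namespace Pool.Agent.Results.MP_760d08_an.RealOrComplex

universe u

/-- The criterion with two vectors in the closed unit ball implies the one of Mathlib. -/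
theorem uniformConvexSpace_of_midpoint {X : Type u} [NormedAddCommGroup X] [NormedSpace ℝ X]
    (h : ∀ ε : ℝ, 0 < ε → ε ≤ 2 → ∃ δ : ℝ, 0 < δ ∧ ∀ x y : X, ‖x‖ ≤ 1 → ‖y‖ ≤ 1 →
      ε ≤ ‖x - y‖ → ‖(2 : ℝ)⁻¹ • (x + y)‖ ≤ 1 - δ) : UniformConvexSpace X := by
  refine ⟨fun ε hε => ?_⟩
  by_cases h2 : ε ≤ 2
  · obtain ⟨δ, hδ, hxy⟩ := h ε hε h2
    refine ⟨2 * δ, by linarith, fun x hx y hy hd => ?_⟩
    have h1 := hxy x y hx.le hy.le hd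
    rw [norm_smul, Real.norm_of_nonneg (by norm_num : (0 : ℝ) ≤ 2⁻¹)] at h1
    linarith
  · refine ⟨1, one_pos, fun x hx y hy hd => ?_⟩
    exfalso
    have := norm_sub_le x y
    linarith

theorem result (𝕜 : Type) [RCLike 𝕜] (X : Type u) [NormedAddCommGroup X] [NormedSpace 𝕜 X]
    [CompleteSpace X]
    (huc : ∀ ε : ℝ, 0 < ε → ε ≤ 2 → ∃ δ : ℝ, 0 < δ ∧ ∀ x y : X, ‖x‖ ≤ 1 → ‖y‖ ≤ 1 →
      ε ≤ ‖x - y‖ → ‖(2 : 𝕜)⁻¹ • (x + y)‖ ≤ 1 - δ)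
    (U : X → X) (hU : Set.MapsTo U (closedBall (0 : X) 1) (closedBall (0 : X) 1))
    (hne : ∀ x ∈ closedBall (0 : X) 1, ∀ y ∈ closedBall (0 : X) 1, ‖U x - U y‖ ≤ ‖x - y‖) :
    ∀ x ∈ closedBall (0 : X) 1, ∃ p ∈ closedBall (0 : X) 1, U p = p ∧
      ∀ f : X →L[𝕜] 𝕜,
        Tendsto (fun n : ℕ => f ((((n : 𝕜) + 1)⁻¹) • ∑ j ∈ Finset.range (n + 1), U^[j] x))
          atTop (𝓝 (f p)) := by
  intro x hx
  let _ : NormedSpace ℝ X := NormedSpace.restrictScalars ℝ 𝕜 X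
  have hsm : ∀ (t : ℝ) (z : X), t • z = (t : 𝕜) • z := fun t z => by
    rw [← RCLike.real_smul_eq_coe_smul]
  have : UniformConvexSpace X := uniformConvexSpace_of_midpoint (by
    intro ε hε h2
    obtain ⟨δ, hδ, h⟩ := huc ε hε h2
    refine ⟨δ, hδ, fun x y hx hy hd => ?_⟩
    have h2 : ((2 : ℝ)⁻¹ • (x + y) : X) = (2 : 𝕜)⁻¹ • (x + y) := by
      rw [hsm, RCLike.ofReal_inv, RCLike.ofReal_ofNat]
    rw [h2]
    exact h x y hx hy hd)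
  obtain ⟨p, hp, hUp, hlim⟩ := Pool.Agent.Lib.MP_760d08_an.main (T := U) ⟨hU, hne⟩ hx
  refine ⟨p, hp, hUp, fun f => ?_⟩
  have h1 : ∀ n : ℕ, (((n : 𝕜) + 1)⁻¹) • ∑ j ∈ Finset.range (n + 1), U^[j] x
      = (((n : ℝ) + 1)⁻¹) • ∑ j ∈ Finset.range (n + 1), U^[j] x := by
    intro n
    rw [hsm]
    congr 1
    push_cast
    rfl
  let fr : X →L[ℝ] ℝ := RCLike.reCLM.comp (f.restrictScalars ℝ)
  let fi : X →L[ℝ] ℝ := RCLike.imCLM.comp (f.restrictScalars ℝ)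
  have hr := hlim fr
  have hi := hlim fi
  have h2 : ∀ z : X, f z = ((fr z : ℝ) : 𝕜) + ((fi z : ℝ) : 𝕜) * RCLike.I := by
    intro z
    exact (RCLike.re_add_im (f z)).symm
  rw [h2 p]
  simp_rw [h1]
  have h3 : ∀ n : ℕ, f ((((n : ℝ) + 1)⁻¹) • ∑ j ∈ Finset.range (n + 1), U^[j] x)
      = ((fr ((((n : ℝ) + 1)⁻¹) • ∑ j ∈ Finset.range (n + 1), U^[j] x) : ℝ) : 𝕜)
        + ((fi ((((n : ℝ) + 1)⁻¹) • ∑ j ∈ Finset.range (n + 1), U^[j] x) : ℝ) : 𝕜) * RCLike.I :=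
    fun n => h2 _
  rw [show (fun n : ℕ => f ((((n : ℝ) + 1)⁻¹) • ∑ j ∈ Finset.range (n + 1), U^[j] x)) =
    fun n : ℕ => ((fr ((((n : ℝ) + 1)⁻¹) • ∑ j ∈ Finset.range (n + 1), U^[j] x) : ℝ) : 𝕜)
        + ((fi ((((n : ℝ) + 1)⁻¹) • ∑ j ∈ Finset.range (n + 1), U^[j] x) : ℝ) : 𝕜) * RCLike.I
    from funext h3]
  exact ((RCLike.continuous_ofReal.tendsto _).comp hr).add
    (((RCLike.continuous_ofReal.tendsto _).comp hi).mul tendsto_const_nhds)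

end Pool.Agent.Results.MP_760d08_an.RealOrComplex
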